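import Pool.Agent.J4H23.VD.Stm

set_option autoImplicit false

/-! Project VD (helper23), job BID. -/

namespace Pool.Agent.J4H94.VD

open Finset Pool.Agent.NPC Pool.Agent.H49R2.PC Pool.Agent.J4H63.DB Pool.Agent.J4H23.SB Pool.Agent.J4H23.VD

lemma sum_eq (P : ℕ → Prop) [DecidablePred P] (l : List (ℕ × ℕ)) :
    ((l.filter (fun p => decide (P p.1))).map Prod.snd).sum =
      ∑ i ∈ Finset.range l.length, if P ((l.map Prod.fst).getD i 0) then (l.map Prod.snd).getD i 0 else 0 := by
  induction l with
  | nil => simp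
  | cons a l ih =>
    rw [List.length_cons, Finset.sum_range_succ', List.filter_cons]
    simp only [List.map_cons, List.getD_cons_succ, List.getD_cons_zero]
    rw [← ih]
    by_cases h : P a.1
    · simp [h, add_comm]
    · simp [h]

lemma wgt_G (G : WG) (X : List ℕ) :
    wgt G X = ∑ i ∈ Finset.range G.1.length, if (vs G).getD i 0 ∈ X then (wl G).getD i 0 else 0 := by
  unfold wgt vs wl
  exact sum_eq (fun v => v ∈ X) G.1

lemma wgt_H (m : ℕ) (E : List (ℕ × ℕ)) (w : List ℕ) (X : List ℕ) :
    wgt ((List.range m).map (fun i => (i, w.getD i 0)), E) X =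
      ∑ i ∈ Finset.range m, if i ∈ X then w.getD i 0 else 0 := by
  rw [wgt_G]
  have hl : ((List.range m).map (fun i => (i, w.getD i 0))).length = m := by simp
  simp only [hl]
  apply Finset.sum_congr rfl
  intro i hi
  have hi' : i < m := Finset.mem_range.1 hi
  have e1 : (vs ((List.range m).map (fun i => (i, w.getD i 0)), E)).getD i 0 = i := by
    unfold vs
    rw [List.getD_eq_getElem _ _ (by simpa using hi')]
    simp
  have e2 : (wl ((List.range m).map (fun i => (i, w.getD i 0)), E)).getD i 0 = w.getD i 0 := by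
    unfold wl
    rw [List.getD_eq_getElem _ _ (by simpa using hi')]
    simp
  rw [e1, e2]

theorem t_BID : S_BID := by
  intro G m s r c C hG hm hc hnz hA
  obtain ⟨hnd, hed⟩ := hG
  have hvl : (vs G).length = G.1.length := by unfold vs; simp
  have hwl : (wl G).length = G.1.length := by unfold wl; simp
  -- the positions
  have hpos : ∀ a ∈ vs G, ∃ i < G.1.length, (vs G).getD i 0 = a := by
    intro a ha
    obtain ⟨i, hi, rfl⟩ := List.getElem_of_mem ha
    exact ⟨i, by rwa [← hvl], List.getD_eq_getElem _ _ hi⟩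
  have hinj : ∀ i j : ℕ, i < G.1.length → j < G.1.length → (vs G).getD i 0 = (vs G).getD j 0 → i = j := by
    intro i j hi hj h
    rw [List.getD_eq_getElem _ _ (by rwa [hvl]), List.getD_eq_getElem _ _ (by rwa [hvl])] at h
    exact (List.Nodup.getElem_inj_iff hnd).1 h
  have hback : ∀ i : ℕ, i < G.1.length → ((vs G).getD i 0 ∈ back G C ↔ i ∈ C) := by
    intro i hi
    unfold back
    rw [List.mem_map]
    constructor
    · rintro ⟨j, hj, hji⟩
      rw [List.mem_filter, decide_eq_true_iff] at hj
      rw [← hinj j i hj.2 hi hji]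
      exact hj.1
    · intro h
      exact ⟨i, by rw [List.mem_filter, decide_eq_true_iff]; exact ⟨h, hi⟩, rfl⟩
  -- the weights
  have hsum : ∀ (X Y : List ℕ), (∀ i < G.1.length, (i ∈ X ↔ (vs G).getD i 0 ∈ Y)) →
      wgt (wn m (em G) (wl G) s r) X = wgt G Y := by
    intro X Y h
    unfold wn
    rw [wgt_H, wgt_G]
    symm
    have h1 : ∑ i ∈ Finset.range G.1.length, (if (vs G).getD i 0 ∈ Y then (wl G).getD i 0 else 0) =
        ∑ i ∈ Finset.range G.1.length, (if i ∈ X then (wl G).getD i 0 else 0) := by
      apply Finset.sum_congr rfl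
      intro i hi
      have := h i (Finset.mem_range.1 hi)
      by_cases hx : i ∈ X
      · rw [if_pos hx, if_pos (this.1 hx)]
      · rw [if_neg hx, if_neg (fun hy => hx (this.2 hy))]
    rw [h1]
    apply Finset.sum_subset
    · intro i hi
      rw [Finset.mem_range] at hi ⊢
      omega
    · intro i _ hi
      have hi' : G.1.length ≤ i := not_lt.1 (fun h => hi (Finset.mem_range.2 h))
      rw [List.getD_eq_default _ _ (by rw [hwl]; exact hi')]
      split_ifs <;> rfl
  have hem : ∀ i j : ℕ, (i, j) ∈ em G ↔ (i < G.1.length ∧ j < G.1.length) ∧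
      (((vs G).getD i 0, (vs G).getD j 0) ∈ G.2 ∨ ((vs G).getD j 0, (vs G).getD i 0) ∈ G.2) := by
    intro i j
    unfold Pool.Agent.J4H23.VD.em
    rw [List.mem_filter, mem_prodL, List.mem_range, List.mem_range]
    simp only [Bool.or_eq_true, decide_eq_true_iff]
  have hwn : ∀ i j : ℕ, (i, j) ∈ (wn m (em G) (wl G) s r).2 ↔
      (i < m ∧ j < m) ∧ i < j ∧ ((i, j) ∈ em G ∨ nz m s r i j = true) := by
    intro i j
    unfold wn
    simp only
    rw [List.mem_filter, mem_prodL, List.mem_range, List.mem_range]
    simp only [Bool.and_eq_true, Bool.or_eq_true, decide_eq_true_iff]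
  obtain ⟨hcov, hmin⟩ := hA
  refine ⟨?_, ?_⟩
  · -- a cover
    intro e he
    obtain ⟨h1, h2, h3⟩ := hed e he
    obtain ⟨i, hi, hia⟩ := hpos _ h1
    obtain ⟨j, hj, hjb⟩ := hpos _ h2
    have hij : i ≠ j := by
      intro h
      rw [h] at hia
      exact h3 (hia.symm.trans hjb)
    have hee : ((vs G).getD i 0, (vs G).getD j 0) ∈ G.2 := by
      rw [hia, hjb]
      exact he
    rw [← hia, ← hjb, hback i hi, hback j hj]
    rcases lt_or_gt_of_ne hij with h | h
    · exact hcov (i, j) ((hwn i j).2 ⟨⟨by omega, by omega⟩, h, Or.inl ((hem i j).2 ⟨⟨hi, hj⟩, Or.inl hee⟩)⟩)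
    · exact (hcov (j, i) ((hwn j i).2 ⟨⟨by omega, by omega⟩, h, Or.inl ((hem j i).2 ⟨⟨hj, hi⟩, Or.inr hee⟩)⟩)).symm
  · intro D hD
    -- the cover of the host
    set D' : List ℕ := (List.range m).filter
      (fun i => decide (G.1.length ≤ i) || decide ((vs G).getD i 0 ∈ D)) with hD'
    have hmem : ∀ i : ℕ, i ∈ D' ↔ i < m ∧ (G.1.length ≤ i ∨ (vs G).getD i 0 ∈ D) := by
      intro i
      rw [hD', List.mem_filter, List.mem_range]
      simp only [Bool.or_eq_true, decide_eq_true_iff]
    have hDc : IsCover (wn m (em G) (wl G) s r) D' := by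
      rintro ⟨i, j⟩ he
      rw [hwn] at he
      obtain ⟨⟨him, hjm⟩, hij, h⟩ := he
      simp only
      rw [hmem, hmem]
      by_cases hj : G.1.length ≤ j
      · right
        exact ⟨hjm, Or.inl hj⟩
      · push Not at hj
        have hi : i < G.1.length := by omega
        rcases h with h | h
        · rw [hem] at h
          rcases h.2 with h | h
          · rcases hD _ h with h' | h'
            · left; exact ⟨him, Or.inr h'⟩
            · right; exact ⟨hjm, Or.inr h'⟩
          · rcases hD _ h with h' | h'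
            · right; exact ⟨hjm, Or.inr h'⟩
            · left; exact ⟨him, Or.inr h'⟩
        · rw [hnz i j hi hj] at h
          exact absurd h (by decide)
    have h1 := hmin D' hDc
    rw [hsum C (back G C) (fun i hi => (hback i hi).symm), hsum D' D (fun i hi => by
      rw [hmem]
      constructor
      · rintro ⟨-, h | h⟩
        · omega
        · exact h
      · intro h
        exact ⟨by omega, Or.inr h⟩)] at h1
    exact h1

end Pool.Agent.J4H94.VD
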